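import Pool.Agent.W552.AS
import Pool.Agent.W534.TateDefs

/-!
# Direct summands of noncommutative motives over finite fields, and the Tate conjecture
-/

set_option autoImplicit false
set_option linter.all false

open CategoryTheory AlgebraicGeometry

universe u v

namespace Pool.Agent.L5helper29.NC

open Pool.Agent.H914 Pool.Agent.H914.VarClass Pool.Agent.H914.VarClass.Obj
  Pool.Agent.H914.WeilCohomology Pool.Agent.H281R3.HT Pool.Agent.W552 Pool.Agent.W534

variable {k : Type u} [Field k] {𝒱 : VarClass k} {ops : CycleOps 𝒱}

/-- `(X, f)` is a direct summand of the noncommutative motive of `X`: `f` is an idempotent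
endomorphism of the cohomology of `X` which is given by a self-correspondence of `X` of arbitrary
degree, that is, a sum `c` of classes of cycles of all codimensions on `X × X` (an element of
`K_0(X × X)_ℚ`). -/
def IsMotive (W : WeilCohomology.{u, v} ops) (X : 𝒱.Obj) (f : W.H X → W.H X) : Prop :=
  (∃ c : W.H (X.prod X), AS W (X.prod X) c ∧ ∀ x, f x = actC W c x) ∧ ∀ x, f (f x) = f x

/-- The Tate classes of `(X, f)`: the sums of classes of degrees `2 j` on which the Frobenius
endomorphism relative to some finite field, with `q` elements, acts as multiplication by `q ^ j`,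
which are fixed by `f`. -/
def IsTateClass {W : WeilCohomology.{u, v} ops} {p : ℕ} (Φ : FrobSystem W p) (X : 𝒱.Obj)
    (f : W.H X → W.H X) (c : W.H X) : Prop :=
  c ∈ Submodule.span W.K {c | ∃ j, IsTate Φ X j c} ∧ f c = c

/-- The classes of the elements of `K_0(X, f)_ℚ`: the sums of classes of cycles of all codimensions
which are fixed by `f`. -/
def IsKZeroClass (W : WeilCohomology.{u, v} ops) (X : 𝒱.Obj) (f : W.H X → W.H X) (c : W.H X) :
    Prop :=
  AS W X c ∧ f c = c

/-- The Tate conjecture for the direct summand `(X, f)` of the noncommutative motive of `X`, over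
all finite fields. -/
def NCTateConj {W : WeilCohomology.{u, v} ops} {p : ℕ} (Φ : FrobSystem W p) (X : 𝒱.Obj)
    (f : W.H X → W.H X) : Prop :=
  ∀ c, IsTateClass Φ X f c → c ∈ Submodule.span W.K {a | IsKZeroClass W X f a}

/-- `h` is the external product `f × e`: the linear operator on the cohomology of `X × Z` with
`h (a × t) = f a × e t`. -/
def IsTensor (W : WeilCohomology.{u, v} ops) {X Z : 𝒱.Obj} (f : W.H X → W.H X)
    (e : W.H Z → W.H Z) (h : W.H (X.prod Z) → W.H (X.prod Z)) : Prop :=
  (∀ (r : W.K) x y, h (r • x + y) = r • h x + h y) ∧ ∀ a t, h (ext W a t) = ext W (f a) (e t)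

end Pool.Agent.L5helper29.NC
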