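import Pool.Agent.L5helper29.NC.Main
import Pool.Agent.L5helper29.NC.Def

/-!
# The noncommutative Tate conjecture for products: the final form
-/

set_option autoImplicit false
set_option linter.all false

open CategoryTheory AlgebraicGeometry

universe u v

namespace Pool.Agent.L5helper29.NC

open Pool.Agent.H914 Pool.Agent.H914.VarClass Pool.Agent.H914.VarClass.Obj
  Pool.Agent.H914.WeilCohomology Pool.Agent.H281R3.HT Pool.Agent.W552 Pool.Agent.W534
  Pool.Agent.W458.RK Pool.Agent.W458.MF Pool.Agent.TH132.A Pool.Agent.TH121.KT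

variable {k : Type u} [Field k] {𝒱 : VarClass k} {ops : CycleOps 𝒱}
  {W : WeilCohomology.{u, v} ops} {X Z U : 𝒱.Obj} {p : ℕ} {Φ : FrobSystem W p}

lemma motive_lin {f : W.H X → W.H X} (hf : IsMotive W X f) :
    ∃ F : Module.End W.K (W.H X), (∀ x, F x = f x) ∧ IsSummand W X F := by
  obtain ⟨⟨c, hc, hcf⟩, hid⟩ := hf
  refine ⟨W.corr c, fun x => (hcf x).symm, ⟨c, hc, rfl⟩, fun x => ?_⟩
  have h1 : ∀ x, W.corr c x = f x := fun x => (hcf x).symm
  rw [h1, h1, hid]

lemma nc_iff {f : W.H X → W.H X} {F : Module.End W.K (W.H X)} (h : ∀ x, F x = f x) :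
    NCTateConj Φ X f ↔ NCTate Φ X F := by
  have h1 : {a | IsKZeroClass W X f a} = {x | AS W X x ∧ F x = x} := by
    ext x
    change (AS W X x ∧ f x = x) ↔ _
    rw [← h]
    rfl
  constructor
  · intro g x hx
    have h2 := mem_tateClasses.1 hx
    have h3 := g x ⟨h2.1, by rw [← h]; exact h2.2⟩
    rw [h1] at h3
    exact h3
  · intro g x hx
    have h3 := g (mem_tateClasses.2 ⟨hx.1, by rw [h]; exact hx.2⟩)
    rw [h1]
    exact h3

/-- **Independent families.** -/
theorem final_nc' [IsAlgClosed W.K] (hp : 1 < p) (σ : W.K →+* ℂ) {J : Type}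
    {A : J → Finset ℂ} {B : Finset ℂ} {G : Subgroup (RingAut ℂ)}
    (hA : ∀ j, ID.BlockG p G (A j)) (hBG : ∀ τ ∈ G, ∀ b ∈ B, τ b ∈ B) (E : Set J)
    (hE : ∀ F : Finset J, Disjoint (F : Set J) E → ∀ j ∈ F,
        ∃ τ ∈ G, (∀ i ∈ F, i ≠ j → ∀ x ∈ A i, τ x = x) ∧ (∀ b ∈ B, τ b = b) ∧
          ∃ x ∈ A j, τ x ≠ x) (F : Finset J) (hF : Disjoint (F : Set J) E)
    (hX : ID.ProductsOf Φ σ A F X) (hTX : SupersingularAlgebraic Φ X)
    (hU : ID.EigenvaluesIn Φ σ B U) {f : W.H X → W.H X} {e : W.H U → W.H U}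
    (hf : IsMotive W X f) (he : IsMotive W U e) :
    (∃ h, IsTensor W f e h) ∧ ∀ h, IsTensor W f e h → IsMotive W (X.prod U) h ∧
      (∀ w, IsTateClass Φ (X.prod U) h w ↔ w ∈ Submodule.span W.K
        {w | ∃ a t, IsKZeroClass W X f a ∧ IsTateClass Φ U e t ∧ w = ext W a t}) ∧
      (NCTateConj Φ (X.prod U) h ↔ (∀ a, IsKZeroClass W X f a → a = 0) ∨
        NCTateConj Φ U e) := by
  obtain ⟨f', hf1, hf2⟩ := motive_lin hf
  obtain ⟨e', he1, he2⟩ := motive_lin he
  obtain ⟨g1, g2, g3⟩ := final_nc hp σ hA hBG E hE F hF hX hTX hU hf2 he2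
  have hten : ∀ a t, extOp W f' e' (ext W a t) = ext W (f a) (e t) := by
    intro a t
    rw [ext, extOp_tmul, hf1, he1]
    rfl
  have hK : ∀ a, IsKZeroClass W X f a ↔ (AS W X a ∧ f' a = a) := by
    intro a
    rw [hf1]
    rfl
  have hbot : kZeroClasses W X f' = ⊥ ↔ ∀ a, IsKZeroClass W X f a → a = 0 := by
    rw [kZeroClasses, Submodule.span_eq_bot]
    exact forall_congr' fun a => by rw [hK]; rfl
  refine ⟨⟨extOp W f' e', fun r x y => by rw [map_add, map_smul], hten⟩, ?_⟩
  rintro h ⟨h1, h2⟩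
  let hl : Module.End W.K (W.H (X.prod U)) :=
    { toFun := h
      map_add' := fun x y => by
        have := h1 1 x y
        rwa [one_smul, one_smul] at this
      map_smul' := fun r x => by
        have h0 : h 0 = 0 := by
          have := h1 1 0 0
          rw [one_smul, one_smul, add_zero] at this
          exact left_eq_add.1 this
        have := h1 r x 0
        rw [add_zero, h0, add_zero] at this
        exact this }
  have hh : hl = extOp W f' e' := by
    apply ext_kunneth_lin
    intro a b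
    exact (h2 a b).trans (hten a b).symm
  have hh' : ∀ x, extOp W f' e' x = h x := fun x => by rw [← hh]; rfl
  obtain ⟨⟨c, hc, hcf⟩, hid⟩ := g1
  refine ⟨⟨⟨c, hc, fun x => ?_⟩, fun x => ?_⟩, fun w => ?_, ?_⟩
  · rw [← hh', ← hcf]
    rfl
  · rw [← hh', ← hh', hid]
  · have e1 : IsTateClass Φ (X.prod U) h w ↔ w ∈ tateClasses Φ (X.prod U) (extOp W f' e') := by
      rw [mem_tateClasses, hh']
      rfl
    rw [e1, g2]
    clear e1
    constructor
    · intro hw
      unfold products at hw
      induction hw using Submodule.span_induction with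
      | mem w hw =>
        obtain ⟨a, ha, t, ht, rfl⟩ := hw
        have ht' : IsTateClass Φ U e t := by
          have := mem_tateClasses.1 ht
          rw [he1] at this
          exact this
        unfold kZeroClasses at ha
        induction ha using Submodule.span_induction with
        | mem a ha => exact Submodule.subset_span ⟨a, t, (hK a).2 ha, ht', rfl⟩
        | zero => rw [map_zero, zero_mul]; exact Submodule.zero_mem _
        | add x y _ _ hx hy => rw [map_add, add_mul]; exact Submodule.add_mem _ hx hy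
        | smul r x _ hx => rw [map_smul, smul_mul_assoc]; exact Submodule.smul_mem _ _ hx
      | zero => exact Submodule.zero_mem _
      | add x y _ _ hx hy => exact Submodule.add_mem _ hx hy
      | smul r x _ hx => exact Submodule.smul_mem _ _ hx
    · intro hw
      refine Submodule.span_mono ?_ hw
      rintro _ ⟨a, t, ha, ht, rfl⟩
      refine ⟨a, Submodule.subset_span ((hK a).1 ha), t, ?_, rfl⟩
      refine mem_tateClasses.2 ?_
      rw [he1]
      exact ht
  · rw [nc_iff (Φ := Φ) hh', g3, hbot, nc_iff (Φ := Φ) he1]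

end Pool.Agent.L5helper29.NC
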