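import Pool.Agent.L5helper29.NC.Old
import Pool.Agent.L5helper29.ID.Main
import Pool.Agent.N179.TL.Lev
import Pool.Agent.Y133.Half.TrueTate

/-!
# The noncommutative Tate conjecture for products: proofs
-/

set_option autoImplicit false
set_option linter.all false

open CategoryTheory AlgebraicGeometry
open scoped TensorProduct

universe u v

namespace Pool.Agent.L5helper29.NC

open Pool.Agent.H914 Pool.Agent.H914.VarClass Pool.Agent.H914.VarClass.Obj
  Pool.Agent.H914.WeilCohomology Pool.Agent.H281R3.HT Pool.Agent.W552 Pool.Agent.W534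
  Pool.Agent.W458.RK Pool.Agent.W458.MF Pool.Agent.TH132.A Pool.Agent.TH121.KT Pool.Agent.H447
  Pool.Agent.Y138.TU Pool.Agent.Y133.Half

variable {k : Type u} [Field k] {𝒱 : VarClass k} {ops : CycleOps 𝒱}
  {W : WeilCohomology.{u, v} ops} {X Z U : 𝒱.Obj} {p : ℕ} {Φ : FrobSystem W p}
  {PP : W.K → Prop}

/-- The Tate classes on `Z × U` are sums of products. -/
theorem tate_decomp [IsAlgClosed W.K] (hT : TateTimesP Φ PP Z)
    (hpow : ∀ ν (n : ℕ), 0 < n → PP ν → PP (ν ^ n))
    (hU : ∀ ν, Module.End.HasEigenvalue (W.map (Φ.Fr U)).toLinearMap ν → PP ν)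
    {c : ℕ} {w : W.H (Z.prod U)} (hw : IsTate Φ (Z.prod U) c w) :
    w ∈ Submodule.span W.K {z | ∃ (i j : ℕ) (y : W.H Z) (v : W.H U), y ∈ cycSub W Z i ∧
      IsTate Φ U j v ∧ z = W.map (fst Z U) y * W.map (snd Z U) v} := by
  obtain ⟨A, B, C, hA, hB, hC, hAB, hAC, hcomm⟩ := exists_comm Φ Z U
  have hcardB : ∀ t, card Φ (Z.prod U) (A * t) = card Φ Z (B * t) := by
    intro t
    rw [W534.card, W534.card]
    congr 1
    calc Φ.e (Z.prod U) * (A * t) = (A * Φ.e (Z.prod U)) * t := by ring
      _ = _ := by rw [hAB]; ring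
  have hcardC : ∀ t, card Φ (Z.prod U) (A * t) = card Φ U (C * t) := by
    intro t
    rw [W534.card, W534.card]
    congr 1
    calc Φ.e (Z.prod U) * (A * t) = (A * Φ.e (Z.prod U)) * t := by ring
      _ = _ := by rw [hAC]; ring
  set E := kunnethMap (W.map (fst Z U)) (W.map (snd Z U)) with hE
  have hEinj : Function.Injective E := (W.kunneth Z U).1
  obtain ⟨hgr, s, hs, hws⟩ := Pool.Agent.Y133.Half.isTate_iff.1 hw
  have hk : Killed (frob Φ (Z.prod U) s) ((card Φ (Z.prod U) s : W.K) ^ c) 1 w :=
    killed_one_iff.2 ⟨1, one_pos, by rw [pow_one, pow_one]; exact hws⟩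
  obtain ⟨x, hx⟩ := (W.kunneth Z U).2 w
  have hk1 : Killed (frob Φ (Z.prod U) (A * s)) ((card Φ (Z.prod U) (A * s) : W.K) ^ c) 1
      (E x) := by
    rw [mul_comm A s, hE, hx]
    exact (killed_frob_mul hA).2 hk
  rw [hcardB s, killed_comm_iff E hEinj (hcomm s), ← zpow_natCast] at hk1
  have hG : ∀ ν, Module.End.HasEigenvalue (frob Φ U (C * s)) ν → PP ν := by
    rw [frob_pow_eq']
    exact PP_pow hU hpow (Nat.mul_pos hC hs)
  have h1 := hT (B * s) (Nat.mul_pos hB hs) (W.H U) (frob Φ U (C * s)) hG c 1 x hk1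
  rw [← proj_same (W.isInternal (Z.prod U)) hgr, ← hx, ← hE]
  clear hk1 hk hx hws hgr hw
  induction h1 using Submodule.span_induction with
  | mem t ht =>
    obtain ⟨i, y, v, hy, hv, rfl⟩ := ht
    change proj (W.isInternal (Z.prod U)) (2 * c) (W.map (fst Z U) y * W.map (snd Z U) v) ∈ _
    by_cases hic : i ≤ c
    · have h2 : proj (W.isInternal (Z.prod U)) (2 * c)
          (W.map (fst Z U) y * W.map (snd Z U) v) =
          W.map (fst Z U) y * W.map (snd Z U) (proj (W.isInternal U) (2 * (c - i)) v) := by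
        refine gr_induction (W.isInternal U) (p := fun v =>
          proj (W.isInternal (Z.prod U)) (2 * c) (W.map (fst Z U) y * W.map (snd Z U) v) =
            W.map (fst Z U) y * W.map (snd Z U) (proj (W.isInternal U) (2 * (c - i)) v)) ?_ ?_ v
        · intro l b hb
          have h3 := W.mul_mem (W.map_mem (fst Z U) (cycSub_gr hy)) (W.map_mem (snd Z U) hb)
          by_cases hl : l = 2 * (c - i)
          · subst hl
            rw [show 2 * i + 2 * (c - i) = 2 * c by omega] at h3
            rw [proj_same _ h3, proj_same _ hb]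
          · rw [proj_ne _ h3 (by omega), proj_ne _ hb hl, map_zero, mul_zero]
        · intro b b' hb hb'
          simp only [map_add, mul_add, hb, hb']
      rw [h2]
      have h5 : Killed (frob Φ U (C * s)) ((card Φ U (C * s) : W.K) ^ (c - i)) 1 v := by
        rw [← hcardC, hcardB, ← zpow_natCast, Nat.cast_sub hic]
        exact hv
      have h6 : Killed (frob Φ U (C * s)) ((card Φ U (C * s) : W.K) ^ (c - i)) 1
          (proj (W.isInternal U) (2 * (c - i)) v) :=
        killed_comm (f := proj (W.isInternal U) (2 * (c - i)))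
          (fun x => (proj_map _ _ _).symm) h5
      obtain ⟨M, hM, hM'⟩ := killed_iff_frob.1 h6
      rw [pow_one, LinearMap.sub_apply, LinearMap.smul_apply, Module.End.one_apply,
        sub_eq_zero] at hM'
      exact Submodule.subset_span ⟨i, c - i, y, _, hy,
        Pool.Agent.Y133.Half.isTate_iff.2 ⟨proj_mem _ _ _, C * s * M,
          Nat.mul_pos (Nat.mul_pos hC hs) hM, hM'⟩, rfl⟩
    · have h2 : proj (W.isInternal (Z.prod U)) (2 * c)
          (W.map (fst Z U) y * W.map (snd Z U) v) = 0 := by
        refine gr_induction (W.isInternal U) (p := fun v =>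
          proj (W.isInternal (Z.prod U)) (2 * c) (W.map (fst Z U) y * W.map (snd Z U) v) =
            0) ?_ ?_ v
        · intro l b hb
          have h3 := W.mul_mem (W.map_mem (fst Z U) (cycSub_gr hy)) (W.map_mem (snd Z U) hb)
          exact proj_ne _ h3 (by omega)
        · intro b b' hb hb'
          simp only [map_add, mul_add, hb, hb', add_zero]
      rw [h2]
      exact Submodule.zero_mem _
  | zero => rw [map_zero, map_zero]; exact Submodule.zero_mem _
  | add x y _ _ hx hy => rw [map_add, map_add]; exact Submodule.add_mem _ hx hy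
  | smul r x _ hx => rw [map_smul, map_smul]; exact Submodule.smul_mem _ _ hx

/-- Sums of algebraic classes are combinations of classes of cycles. -/
lemma AS.mem_algSpan {x : W.H X} (hx : AS W X x) : x ∈ algSpan W X := by
  refine AS.ind (p := fun x => x ∈ algSpan W X) ?_ (fun a b ha hb => Submodule.add_mem _ ha hb) hx
  intro j x hx
  exact Submodule.subset_span (Set.mem_iUnion.2 ⟨j, hx⟩)

lemma algSpan_eq_span : algSpan W X = Submodule.span W.K {x | AS W X x} := by
  apply le_antisymm
  · refine Submodule.span_mono ?_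
    intro x hx
    obtain ⟨j, hj⟩ := Set.mem_iUnion.1 hx
    exact AS.of hj
  · exact Submodule.span_le.2 fun x hx => AS.mem_algSpan hx

/-- The operators given by algebraic classes preserve the Tate classes. -/
lemma tspan_corr {c : W.H (X.prod X)} (hc : AS W (X.prod X) c) {x : W.H X}
    (hx : x ∈ TSpan Φ X) : W.corr c x ∈ TSpan Φ X := by
  rw [corr_apply]
  have h1 : c ∈ (trueTateSys Φ).C (X.prod X) := alg_le_trueTate Φ _ (AS.mem_algSpan hc)
  exact (trueTateSys Φ).push _ ((trueTateSys Φ).mul h1 ((trueTateSys Φ).map _ hx))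

variable {f : Module.End W.K (W.H X)} {e : Module.End W.K (W.H U)}

lemma IsSummand.as (hf : IsSummand W X f) {x : W.H X} (hx : AS W X x) : AS W X (f x) := by
  obtain ⟨c, hc, rfl⟩ := hf.algebraic
  exact hc.corr hx

lemma IsSummand.tspan (hf : IsSummand W X f) {x : W.H X} (hx : x ∈ TSpan Φ X) :
    f x ∈ TSpan Φ X := by
  obtain ⟨c, hc, rfl⟩ := hf.algebraic
  exact tspan_corr hc hx

lemma mem_tateClasses {x : W.H X} : x ∈ tateClasses Φ X f ↔ x ∈ TSpan Φ X ∧ f x = x := by
  rw [tateClasses, Submodule.mem_inf, LinearMap.mem_ker, LinearMap.sub_apply,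
    Module.End.one_apply, sub_eq_zero]
  rfl

/-- The image of an algebraic class. -/
lemma IsSummand.kZero (hf : IsSummand W X f) {x : W.H X} (hx : x ∈ algSpan W X) :
    f x ∈ kZeroClasses W X f := by
  rw [algSpan_eq_span] at hx
  induction hx using Submodule.span_induction with
  | mem x hx => exact Submodule.subset_span ⟨hf.as hx, hf.idempotent x⟩
  | zero => rw [map_zero]; exact Submodule.zero_mem _
  | add x y _ _ hx hy => rw [map_add]; exact Submodule.add_mem _ hx hy
  | smul r x _ hx => rw [map_smul]; exact Submodule.smul_mem _ _ hx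

lemma kZero_fixed {x : W.H X} (hx : x ∈ kZeroClasses W X f) : x ∈ algSpan W X ∧ f x = x := by
  unfold kZeroClasses at hx
  induction hx using Submodule.span_induction with
  | mem x hx => exact ⟨AS.mem_algSpan hx.1, hx.2⟩
  | zero => exact ⟨Submodule.zero_mem _, map_zero f⟩
  | add x y _ _ hx hy => exact ⟨Submodule.add_mem _ hx.1 hy.1, by rw [map_add, hx.2, hy.2]⟩
  | smul r x _ hx => exact ⟨Submodule.smul_mem _ _ hx.1, by rw [map_smul, hx.2]⟩

/-- The product of two summands. -/
lemma IsSummand.prod (hf : IsSummand W X f) (he : IsSummand W U e) :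
    IsSummand W (X.prod U) (extOp W f e) := by
  refine ⟨AOp.ext hf.algebraic he.algebraic, fun x => ?_⟩
  have h1 : f * f = f := LinearMap.ext hf.idempotent
  have h2 : e * e = e := LinearMap.ext he.idempotent
  have h3 : extOp W f e * extOp W f e = extOp W f e := by rw [extOp_mul, h1, h2]
  exact LinearMap.congr_fun h3 x

/-- **The Tate classes of the product.** -/
theorem tateClasses_prod [IsAlgClosed W.K] (hT : TateTimesP Φ PP X)
    (hpow : ∀ ν (n : ℕ), 0 < n → PP ν → PP (ν ^ n))
    (hU : ∀ ν, Module.End.HasEigenvalue (W.map (Φ.Fr U)).toLinearMap ν → PP ν)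
    (hf : IsSummand W X f) (he : IsSummand W U e) :
    tateClasses Φ (X.prod U) (extOp W f e) =
      products W (kZeroClasses W X f) (tateClasses Φ U e) := by
  apply le_antisymm
  · intro w hw
    obtain ⟨h1, h2⟩ := mem_tateClasses.1 hw
    have h3 : w ∈ Submodule.span W.K {z | ∃ (i j : ℕ) (y : W.H X) (v : W.H U), y ∈ cycSub W X i ∧
      IsTate Φ U j v ∧ z = W.map (fst X U) y * W.map (snd X U) v} := by
      refine TSpan.ind (q := fun w => w ∈ _) ?_ (Submodule.zero_mem _)
        (fun x y hx hy => Submodule.add_mem _ hx hy) (fun c x hx => Submodule.smul_mem _ _ hx) h1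
      intro j x hx
      exact tate_decomp hT hpow hU hx
    rw [← h2]
    clear h1 h2 hw
    induction h3 using Submodule.span_induction with
    | mem w hw =>
      obtain ⟨i, j, y, v, hy, hv, rfl⟩ := hw
      rw [extOp_tmul]
      refine Submodule.subset_span ⟨f y, hf.kZero ?_, e v, ?_, rfl⟩
      · rw [cycSub] at hy
        refine Submodule.span_le.2 ?_ hy
        rintro _ ⟨z, hz, rfl⟩
        exact Submodule.subset_span (Set.mem_iUnion.2 ⟨i, ⟨z, hz, rfl⟩⟩)
      · exact mem_tateClasses.2 ⟨he.tspan (TSpan.of hv), he.idempotent v⟩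
    | zero => rw [map_zero]; exact Submodule.zero_mem _
    | add x y _ _ hx hy => rw [map_add]; exact Submodule.add_mem _ hx hy
    | smul r x _ hx => rw [map_smul]; exact Submodule.smul_mem _ _ hx
  · refine Submodule.span_le.2 ?_
    rintro _ ⟨a, ha, t, ht, rfl⟩
    obtain ⟨ha1, ha2⟩ := kZero_fixed ha
    obtain ⟨ht1, ht2⟩ := mem_tateClasses.1 ht
    refine mem_tateClasses.2 ⟨?_, by rw [extOp_tmul, ha2, ht2]⟩
    exact (trueTateSys Φ).mul ((trueTateSys Φ).map _ (alg_le_trueTate Φ _ ha1))
      ((trueTateSys Φ).map _ ht1)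

/-- A nonzero sum of algebraic classes has a nonzero intersection number. -/
lemma exists_partnerAS (hD : HomEqNum W X) {x : W.H X} (hx : AS W X x) (h0 : x ≠ 0) :
    ∃ x', AS W X x' ∧ W.tr X (x * x') ≠ 0 := by
  have hodd : ∀ j, proj (W.isInternal X) (2 * j + 1) x = 0 := by
    intro j
    refine AS.ind (p := fun x => proj (W.isInternal X) (2 * j + 1) x = 0) ?_ ?_ hx
    · intro i y hy
      exact proj_ne _ (alg_gr hy) (by omega)
    · intro a b ha hb
      rw [map_add, ha, hb, add_zero]
  obtain ⟨j, hj⟩ : ∃ j, proj (W.isInternal X) (2 * j) x ≠ 0 := by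
    by_contra hne
    push Not at hne
    apply h0
    have h1 := sum_proj (W.isInternal X) (N := 2 * X.dim + 1)
      (fun i hi => W.gr_eq_bot X i (by omega))
    have h2 : x = ∑ i ∈ Finset.range (2 * X.dim + 1), proj (W.isInternal X) i x := by
      conv_lhs => rw [← Module.End.one_apply (R := W.K) x, ← h1]
      rw [LinearMap.sum_apply]
    rw [h2]
    refine Finset.sum_eq_zero fun i _ => ?_
    rcases Nat.even_or_odd' i with ⟨l, rfl | rfl⟩
    · exact hne l
    · exact hodd l
  obtain ⟨hjd, x', hx', htr⟩ := exists_partner hD (hx.proj j) hj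
  refine ⟨x', AS.of hx', ?_⟩
  have h3 : ∀ y : W.H X, W.tr X (proj (W.isInternal X) (2 * j) y * x') = W.tr X (y * x') := by
    intro y
    refine gr_induction (W.isInternal X) (p := fun y =>
      W.tr X (proj (W.isInternal X) (2 * j) y * x') = W.tr X (y * x')) ?_ ?_ y
    · intro l b hb
      by_cases hl : l = 2 * j
      · subst hl
        rw [proj_same _ hb]
      · rw [proj_ne _ hb hl, zero_mul, map_zero]
        exact (W.tr_eq_zero (W.mul_mem hb (alg_gr hx')) (by omega)).symm
    · intro a b ha hb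
      rw [map_add, add_mul, map_add, ha, hb, add_mul, map_add]
  rwa [← h3]

/-- The coefficient of a product. -/
lemma coef_ext' {x' : W.H X} (hx' : AS W X x') (x : W.H X) (u : W.H U) :
    W.push (snd X U) ((W.map (fst X U) x * W.map (snd X U) u) * W.map (fst X U) x') =
      W.tr X (x * x') • u := by
  rw [mul_assoc, ← (hx'.map (fst X U)).comm (W.map (snd X U) u), ← mul_assoc, ← map_mul,
    W.push_snd]

lemma algSpan_push_mul {x' : W.H X} (hx' : AS W X x') {z : W.H (X.prod U)}
    (hz : z ∈ algSpan W (X.prod U)) :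
    W.push (snd X U) (z * W.map (fst X U) x') ∈ algSpan W U := by
  rw [algSpan_eq_span] at hz
  induction hz using Submodule.span_induction with
  | mem z hz =>
    have hz' : AS W (X.prod U) z := hz
    exact AS.mem_algSpan ((hz'.mul (hx'.map _)).push _)
  | zero => rw [zero_mul, map_zero]; exact Submodule.zero_mem _
  | add x y _ _ hx hy => rw [add_mul, map_add]; exact Submodule.add_mem _ hx hy
  | smul r x _ hx => rw [smul_mul_assoc, map_smul]; exact Submodule.smul_mem _ _ hx

/-- The products of algebraic classes. -/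
lemma algSpan_ext {a : W.H X} {t : W.H U} (ha : a ∈ algSpan W X) (ht : t ∈ algSpan W U) :
    W.map (fst X U) a * W.map (snd X U) t ∈ algSpan W (X.prod U) := by
  rw [algSpan_eq_span] at ha ht ⊢
  induction ha using Submodule.span_induction with
  | mem a ha' =>
    induction ht using Submodule.span_induction with
    | mem t ht' =>
      have h1 : AS W X a := ha'
      have h2 : AS W U t := ht'
      exact Submodule.subset_span ((h1.map (fst X U)).mul (h2.map (snd X U)))
    | zero => rw [map_zero, mul_zero]; exact Submodule.zero_mem _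
    | add x y _ _ hx hy =>
      rw [map_add, mul_add]; exact Submodule.add_mem _ hx hy
    | smul r x _ hx => rw [map_smul, mul_smul_comm]; exact Submodule.smul_mem _ _ hx
  | zero => rw [map_zero, zero_mul]; exact Submodule.zero_mem _
  | add x y _ _ hx hy => rw [map_add, add_mul]; exact Submodule.add_mem _ hx hy
  | smul r x _ hx => rw [map_smul, smul_mul_assoc]; exact Submodule.smul_mem _ _ hx

/-- **The noncommutative Tate conjecture for the product.** -/
theorem ncTate_prod [IsAlgClosed W.K] (hp : 1 < p) (hT : TateTimesP Φ PP X) (h1PP : PP 1)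
    (hpow : ∀ ν (n : ℕ), 0 < n → PP ν → PP (ν ^ n))
    (hU : ∀ ν, Module.End.HasEigenvalue (W.map (Φ.Fr U)).toLinearMap ν → PP ν)
    (hf : IsSummand W X f) (he : IsSummand W U e) :
    NCTate Φ (X.prod U) (extOp W f e) ↔ kZeroClasses W X f = ⊥ ∨ NCTate Φ U e := by
  have hK := tateClasses_prod hT hpow hU hf he
  constructor
  · intro h
    by_cases h0 : kZeroClasses W X f = ⊥
    · exact Or.inl h0
    right
    obtain ⟨x, hx, hfx, hx0⟩ : ∃ x, AS W X x ∧ f x = x ∧ x ≠ 0 := by
      by_contra hne
      push Not at hne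
      apply h0
      rw [eq_bot_iff]
      refine Submodule.span_le.2 ?_
      rintro x ⟨h1, h2⟩
      exact (Submodule.mem_bot _).2 (hne x h1 h2)
    obtain ⟨x', hx', htr⟩ := exists_partnerAS (homEqNum_of_tateTimesP hp hT h1PP) hx hx0
    intro t ht
    have h1 : W.map (fst X U) x * W.map (snd X U) t ∈ tateClasses Φ (X.prod U) (extOp W f e) := by
      rw [hK]
      exact Submodule.subset_span ⟨x, Submodule.subset_span ⟨hx, hfx⟩, t, ht, rfl⟩
    have h2 := (kZero_fixed (h h1)).1
    have h3 := algSpan_push_mul hx' h2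
    rw [coef_ext' hx'] at h3
    have h4 : t ∈ algSpan W U := (Submodule.smul_mem_iff _ htr).1 h3
    rw [← (mem_tateClasses.1 ht).2]
    exact he.kZero h4
  · intro h
    unfold NCTate
    rw [hK]
    refine Submodule.span_le.2 ?_
    rintro _ ⟨a, ha, t, ht, rfl⟩
    rcases h with h | h
    · rw [h, Submodule.mem_bot] at ha
      rw [ha, map_zero, zero_mul]
      exact Submodule.zero_mem _
    · have h1 := h ht
      obtain ⟨h2, h3⟩ := kZero_fixed h1
      obtain ⟨h4, h5⟩ := kZero_fixed ha
      have h6 := algSpan_ext h4 h2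
      rw [show W.map (fst X U) a * W.map (snd X U) t = extOp W f e
        (W.map (fst X U) a * W.map (snd X U) t) by rw [extOp_tmul, h5, h3]]
      exact (hf.prod he).kZero h6

/-- **Independent families.** -/
theorem final_nc [IsAlgClosed W.K] (hp : 1 < p) (σ : W.K →+* ℂ) {J : Type}
    {A : J → Finset ℂ} {B : Finset ℂ} {G : Subgroup (RingAut ℂ)}
    (hA : ∀ j, ID.BlockG p G (A j)) (hBG : ∀ τ ∈ G, ∀ b ∈ B, τ b ∈ B) (E : Set J)
    (hE : ∀ F : Finset J, Disjoint (F : Set J) E → ∀ j ∈ F,
        ∃ τ ∈ G, (∀ i ∈ F, i ≠ j → ∀ x ∈ A i, τ x = x) ∧ (∀ b ∈ B, τ b = b) ∧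
          ∃ x ∈ A j, τ x ≠ x) (F : Finset J) (hF : Disjoint (F : Set J) E)
    (hX : ID.ProductsOf Φ σ A F X) (hTX : SupersingularAlgebraic Φ X)
    (hU : ID.EigenvaluesIn Φ σ B U) (hf : IsSummand W X f) (he : IsSummand W U e) :
    IsSummand W (X.prod U) (extOp W f e) ∧
    tateClasses Φ (X.prod U) (extOp W f e) =
      products W (kZeroClasses W X f) (tateClasses Φ U e) ∧
    (NCTate Φ (X.prod U) (extOp W f e) ↔ kZeroClasses W X f = ⊥ ∨ NCTate Φ U e) := by
  classical
  have hT := ID.tateTimesP_main hp σ (fun j _ => hA j) hBG (hE F hF) hX hTX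
  have hpow : ∀ (ν : W.K) (n : ℕ), 0 < n → ID.InGroup p B (σ ν) → ID.InGroup p B (σ (ν ^ n)) :=
    fun ν n hn h => by rw [map_pow]; exact ID.inGroup_pow n h
  refine ⟨hf.prod he, tateClasses_prod hT hpow hU hf he, ncTate_prod hp hT ?_ hpow hU hf he⟩
  rw [map_one]
  exact ID.inGroup_one p B

end Pool.Agent.L5helper29.NC
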