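import Pool.Agent.W552.AS
import Pool.Agent.W534.TateDefs

/-!
# Direct summands of noncommutative motives over finite fields, and the Tate conjecture
-/

set_option autoImplicit false
set_option linter.all false

open CategoryTheory AlgebraicGeometry

universe u v

namespace Pool.Agent.L5helper29.NC

open Pool.Agent.H914 Pool.Agent.H914.VarClass Pool.Agent.H914.VarClass.Obj
  Pool.Agent.H914.WeilCohomology Pool.Agent.H281R3.HT Pool.Agent.W552 Pool.Agent.W534

variable {k : Type u} [Field k] {𝒱 : VarClass k} {ops : CycleOps 𝒱}

/-- `(X, f)` is a direct summand of the noncommutative motive of `X`: `f` is an idempotent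
endomorphism of the cohomology of `X` which is given by a self-correspondence of `X` of arbitrary
degree, that is, a sum of classes of cycles of all codimensions on `X × X` (an element of
`K_0(X × X)_ℚ`). -/
structure IsSummand (W : WeilCohomology.{u, v} ops) (X : 𝒱.Obj) (f : Module.End W.K (W.H X)) :
    Prop where
  algebraic : ∃ c : W.H (X.prod X), AS W (X.prod X) c ∧ W.corr c = f
  idempotent : ∀ x, f (f x) = f x

/-- The Tate classes in the cohomology of `(X, f)`, the image of `f`: the sums of classes of degrees
`2 j` on which the Frobenius endomorphism relative to some finite field, with `q` elements, acts as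
multiplication by `q ^ j`, which are fixed by `f`. -/
def tateClasses {W : WeilCohomology.{u, v} ops} {p : ℕ} (Φ : FrobSystem W p) (X : 𝒱.Obj)
    (f : Module.End W.K (W.H X)) : Submodule W.K (W.H X) :=
  Submodule.span W.K {c | ∃ j, IsTate Φ X j c} ⊓ LinearMap.ker (f - 1)

/-- The linear combinations of the classes of the elements of `K_0(X, f)_ℚ`: of the sums of classes
of cycles of all codimensions which are fixed by `f`. -/
def kZeroClasses (W : WeilCohomology.{u, v} ops) (X : 𝒱.Obj) (f : Module.End W.K (W.H X)) :
    Submodule W.K (W.H X) :=
  Submodule.span W.K {x | AS W X x ∧ f x = x}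

/-- The Tate conjecture for the direct summand `(X, f)` of the noncommutative motive of `X`, over
all finite fields. -/
def NCTate {W : WeilCohomology.{u, v} ops} {p : ℕ} (Φ : FrobSystem W p) (X : 𝒱.Obj)
    (f : Module.End W.K (W.H X)) : Prop :=
  tateClasses Φ X f ≤ kZeroClasses W X f

/-- The external products of the elements of two subspaces. -/
noncomputable def products (W : WeilCohomology.{u, v} ops) {X Z : 𝒱.Obj} (S : Submodule W.K (W.H X))
    (T : Submodule W.K (W.H Z)) : Submodule W.K (W.H (X.prod Z)) :=
  Submodule.span W.K {w | ∃ a ∈ S, ∃ t ∈ T, w = W.map (fst X Z) a * W.map (snd X Z) t}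

end Pool.Agent.L5helper29.NC
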